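import Pool.Agent.H97.R4.Defs

/-!
# Union-closed sets of subsets of a set with at most three elements (MP_75f39d)
-/

set_option autoImplicit false

namespace Pool.Agent.H97.R4

open Finset

variable {β : Type*} [DecidableEq β] {M : Finset β → Prop} {C : Finset β}

open scoped Classical in
/-- `1` if `M T`, else `0`. -/
noncomputable def ind (M : Finset β → Prop) (T : Finset β) : ℤ := if M T then 1 else 0

lemma ind_bd (M : Finset β → Prop) (T : Finset β) : 0 ≤ ind M T ∧ ind M T ≤ 1 := by
  classical
  unfold ind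
  split_ifs <;> constructor <;> norm_num

lemma ind_one {T : Finset β} : ind M T = 1 ↔ M T := by
  classical
  unfold ind
  split_ifs with h <;> simp [h]

lemma ind_zero {T : Finset β} : ind M T = 0 ↔ ¬ M T := by
  classical
  unfold ind
  split_ifs with h <;> simp [h]

lemma bM_ind : bM M C = ∑ T ∈ C.powerset, ind M T * (2 * (T.card : ℤ) - C.card) := by
  classical
  unfold bM
  apply Finset.sum_congr rfl
  intro T _
  unfold ind
  split_ifs <;> ring

lemma bM_zero : bM M (∅ : Finset β) = 0 := by
  rw [bM_ind]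
  simp

lemma bM_one (a : β) : bM M ({a} : Finset β) = ind M {a} - ind M ∅ := by
  have ha : a ∉ (∅ : Finset β) := Finset.notMem_empty a
  rw [bM_ind]
  have e : ({a} : Finset β) = insert a ∅ := by simp
  conv_lhs => rw [e, Finset.sum_powerset_insert ha]
  simp only [Finset.powerset_empty, Finset.sum_singleton, insert_empty_eq]
  rw [Finset.card_singleton, Finset.card_empty]
  push_cast
  ring

lemma bM_two {a b : β} (hab : a ≠ b) :
    bM M ({a, b} : Finset β) = 2 * ind M {a, b} - 2 * ind M ∅ := by
  have hb : b ∉ (∅ : Finset β) := Finset.notMem_empty b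
  have ha : a ∉ (insert b ∅ : Finset β) := by simp [hab]
  rw [bM_ind]
  have e : ({a, b} : Finset β) = insert a (insert b ∅) := by simp
  conv_lhs => rw [e, Finset.sum_powerset_insert ha, Finset.sum_powerset_insert hb,
    Finset.sum_powerset_insert hb]
  simp only [Finset.powerset_empty, Finset.sum_singleton, insert_empty_eq]
  rw [Finset.card_pair hab, Finset.card_singleton, Finset.card_singleton, Finset.card_empty]
  push_cast
  ring

lemma bM_three {a b c : β} (hab : a ≠ b) (hac : a ≠ c) (hbc : b ≠ c) :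
    bM M ({a, b, c} : Finset β) = 3 * ind M {a, b, c} + ind M {a, b} + ind M {a, c}
      + ind M {b, c} - ind M {a} - ind M {b} - ind M {c} - 3 * ind M ∅ := by
  have hc : c ∉ (∅ : Finset β) := Finset.notMem_empty c
  have hb : b ∉ (insert c ∅ : Finset β) := by simp [hbc]
  have ha : a ∉ (insert b (insert c ∅) : Finset β) := by simp [hab, hac]
  have e : ({a, b, c} : Finset β) = insert a (insert b (insert c ∅)) := by simp
  rw [bM_ind]
  conv_lhs => rw [e, Finset.sum_powerset_insert ha, Finset.sum_powerset_insert hb,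
    Finset.sum_powerset_insert hb, Finset.sum_powerset_insert hc, Finset.sum_powerset_insert hc,
    Finset.sum_powerset_insert hc, Finset.sum_powerset_insert hc]
  simp only [Finset.powerset_empty, Finset.sum_singleton, insert_empty_eq]
  have c1 : ({a, b, c} : Finset β).card = 3 := Finset.card_eq_three.2 ⟨a, b, c, hab, hac, hbc, rfl⟩
  have c2 : ({a, b} : Finset β).card = 2 := Finset.card_pair hab
  have c3 : ({a, c} : Finset β).card = 2 := Finset.card_pair hac
  have c4 : ({b, c} : Finset β).card = 2 := Finset.card_pair hbc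
  rw [c1, c2, c3, c4, Finset.card_singleton, Finset.card_singleton, Finset.card_singleton,
    Finset.card_empty]
  push_cast
  ring

lemma un_ind (hU : ∀ T T', M T → M T' → M (T ∪ T')) (X Y : Finset β) :
    ind M X + ind M Y ≤ 1 + ind M (X ∪ Y) := by
  have h1 := ind_bd M X
  have h2 := ind_bd M Y
  have h3 := ind_bd M (X ∪ Y)
  by_cases hX : M X
  · by_cases hY : M Y
    · have := ind_one.2 (hU X Y hX hY)
      omega
    · have := ind_zero.2 hY
      omega
  · have := ind_zero.2 hX
    omega

/-- The facts for three points. -/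
lemma facts3 (hU : ∀ T T', M T → M T' → M (T ∪ T')) {a b c : β} (hab : a ≠ b) (hac : a ≠ c)
    (hbc : b ≠ c) (hC : M C) (hCe : C = {a, b, c}) :
    bM M C = 3 * ind M {a, b, c} + ind M {a, b} + ind M {a, c}
      + ind M {b, c} - ind M {a} - ind M {b} - ind M {c} - 3 * ind M ∅ ∧
    ind M {a, b, c} = 1 ∧
    ind M {a} + ind M {b} ≤ 1 + ind M {a, b} ∧ ind M {a} + ind M {c} ≤ 1 + ind M {a, c} ∧
    ind M {b} + ind M {c} ≤ 1 + ind M {b, c} := by
  refine ⟨by rw [hCe]; exact bM_three hab hac hbc, ?_, ?_, ?_, ?_⟩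
  · rw [← hCe]
    exact ind_one.2 hC
  · exact un_ind hU {a} {b}
  · exact un_ind hU {a} {c}
  · exact un_ind hU {b} {c}

lemma bM_small (hC : M C) (h2 : C.card ≤ 2) : 0 ≤ bM M C := by
  have h0 := ind_bd M (∅ : Finset β)
  have hi := ind_one.2 hC
  rcases Nat.lt_or_ge C.card 1 with h | h
  · have h3 : C = ∅ := Finset.card_eq_zero.1 (by omega)
    rw [h3, bM_zero]
  · rcases Nat.lt_or_ge C.card 2 with h' | h'
    · obtain ⟨a, ha⟩ := Finset.card_eq_one.1 (show C.card = 1 by omega)
      rw [ha] at hi
      rw [ha, bM_one]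
      omega
    · obtain ⟨a, b, hab, ha⟩ := Finset.card_eq_two.1 (show C.card = 2 by omega)
      rw [ha] at hi
      rw [ha, bM_two hab]
      omega

lemma bM_ge (hU : ∀ T T', M T → M T' → M (T ∪ T')) (hC : M C) (h3 : C.card ≤ 3) :
    -1 ≤ bM M C := by
  by_cases h2 : C.card ≤ 2
  · have := bM_small hC h2
    omega
  · obtain ⟨a, b, c, hab, hac, hbc, hCe⟩ := Finset.card_eq_three.1 (show C.card = 3 by omega)
    obtain ⟨hv, f0, f1, f2, f3⟩ := facts3 hU hab hac hbc hC hCe
    have b0 := ind_bd M ∅
    have b1 := ind_bd M {a}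
    have b2 := ind_bd M {b}
    have b3 := ind_bd M {c}
    have b4 := ind_bd M {a, b}
    have b5 := ind_bd M {a, c}
    have b6 := ind_bd M {b, c}
    omega

lemma bM_pos' (hU : ∀ T T', M T → M T' → M (T ∪ T')) (hC : M C) (h3 : C.card = 3)
    (h0 : ¬ M ∅) : 2 ≤ bM M C := by
  obtain ⟨a, b, c, hab, hac, hbc, hCe⟩ := Finset.card_eq_three.1 h3
  obtain ⟨hv, f0, f1, f2, f3⟩ := facts3 hU hab hac hbc hC hCe
  have b0 := ind_zero.2 h0
  have b1 := ind_bd M {a}
  have b2 := ind_bd M {b}
  have b3 := ind_bd M {c}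
  have b4 := ind_bd M {a, b}
  have b5 := ind_bd M {a, c}
  have b6 := ind_bd M {b, c}
  omega

/-- Without the empty set, at most two elements. -/
lemma bM_eq_card (hC : M C) (h2 : C.card ≤ 2) (h0 : ¬ M ∅) : bM M C = C.card := by
  have hi := ind_one.2 hC
  have b0 := ind_zero.2 h0
  rcases Nat.lt_or_ge C.card 1 with h | h
  · have h3 : C = ∅ := Finset.card_eq_zero.1 (by omega)
    rw [h3] at hC
    exact absurd hC h0
  · rcases Nat.lt_or_ge C.card 2 with h' | h'
    · obtain ⟨a, ha⟩ := Finset.card_eq_one.1 (show C.card = 1 by omega)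
      rw [ha] at hi
      rw [ha, bM_one, Finset.card_singleton]
      push_cast
      omega
    · obtain ⟨a, b, hab, ha⟩ := Finset.card_eq_two.1 (show C.card = 2 by omega)
      rw [ha] at hi
      rw [ha, bM_two hab, Finset.card_pair hab]
      push_cast
      omega

lemma bM_pos (hU : ∀ T T', M T → M T' → M (T ∪ T')) (hC : M C) (hne : C.Nonempty)
    (h3 : C.card ≤ 3) (h0 : ¬ M ∅) : 0 < bM M C := by
  have h1 : 0 < C.card := hne.card_pos
  by_cases h2 : C.card ≤ 2
  · rw [bM_eq_card hC h2 h0]
    exact_mod_cast h1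
  · have := bM_pos' hU hC (by omega) h0
    omega

lemma bM_forced (hU : ∀ T T', M T → M T' → M (T ∪ T')) (hC : M C) (h3 : C.card ≤ 3)
    (hF : (FoM M C).Nonempty) : ((FoM M C).card : ℤ) ≤ bM M C := by
  have hsub : FoM M C ⊆ C := fun p hp => (mem_FoM.1 hp).1
  have hcard := Finset.card_le_card hsub
  have h0 : ¬ M ∅ := by
    intro h0
    obtain ⟨p, hp⟩ := hF
    exact absurd ((mem_FoM.1 hp).2 ∅ (Finset.empty_subset _) h0) (Finset.notMem_empty p)
  by_cases h2 : C.card ≤ 2
  · rw [bM_eq_card hC h2 h0]
    exact_mod_cast hcard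
  · have h4 : C.card = 3 := by omega
    have h5 := bM_pos' hU hC h4 h0
    by_cases h6 : (FoM M C).card ≤ 2
    · have : ((FoM M C).card : ℤ) ≤ 2 := by exact_mod_cast h6
      omega
    · -- all points forced: no single
      obtain ⟨a, b, c, hab, hac, hbc, hCe⟩ := Finset.card_eq_three.1 h4
      obtain ⟨hv, f0, f1, f2, f3⟩ := facts3 hU hab hac hbc hC hCe
      have hs : ∀ x ∈ C, ¬ M {x} := by
        intro x hx hM
        have h7 : FoM M C ⊆ {x} := by
          intro p hp
          exact (mem_FoM.1 hp).2 {x} (Finset.singleton_subset_iff.2 hx) hM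
        have := Finset.card_le_card h7
        rw [Finset.card_singleton] at this
        omega
      have b0 := ind_zero.2 h0
      have b1 := ind_zero.2 (hs a (by rw [hCe]; simp))
      have b2 := ind_zero.2 (hs b (by rw [hCe]; simp))
      have b3 := ind_zero.2 (hs c (by rw [hCe]; simp))
      have b4 := ind_bd M {a, b}
      have b5 := ind_bd M {a, c}
      have b6 := ind_bd M {b, c}
      have h7 : ((FoM M C).card : ℤ) ≤ 3 := by
        have : (FoM M C).card ≤ 3 := by omega
        exact_mod_cast this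
      omega

/-- Which sets contain a given point. -/
lemma only_full {p q r : β} (hC : C = {p, q, r}) (h1 : ¬ M {r}) (h2 : ¬ M {p, r})
    (h3 : ¬ M {q, r}) : ∀ T, T ⊆ C → M T → r ∈ T → T = C := by
  intro T hs hT hr
  rw [hC] at hs ⊢
  by_cases hp : p ∈ T
  · by_cases hq : q ∈ T
    · apply Finset.Subset.antisymm hs
      intro z hz
      simp only [Finset.mem_insert, Finset.mem_singleton] at hz
      rcases hz with rfl | rfl | rfl
      · exact hp
      · exact hq
      · exact hr
    · exfalso
      apply h2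
      have : T = {p, r} := by
        ext z
        simp only [Finset.mem_insert, Finset.mem_singleton]
        constructor
        · intro hz
          have := hs hz
          simp only [Finset.mem_insert, Finset.mem_singleton] at this
          rcases this with rfl | rfl | rfl
          · exact Or.inl rfl
          · exact absurd hz hq
          · exact Or.inr rfl
        · rintro (rfl | rfl)
          · exact hp
          · exact hr
      rw [← this]
      exact hT
  · exfalso
    by_cases hq : q ∈ T
    · apply h3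
      have : T = {q, r} := by
        ext z
        simp only [Finset.mem_insert, Finset.mem_singleton]
        constructor
        · intro hz
          have := hs hz
          simp only [Finset.mem_insert, Finset.mem_singleton] at this
          rcases this with rfl | rfl | rfl
          · exact absurd hz hp
          · exact Or.inl rfl
          · exact Or.inr rfl
        · rintro (rfl | rfl)
          · exact hq
          · exact hr
      rw [← this]
      exact hT
    · apply h1
      have : T = {r} := by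
        ext z
        simp only [Finset.mem_singleton]
        constructor
        · intro hz
          have := hs hz
          simp only [Finset.mem_insert, Finset.mem_singleton] at this
          rcases this with rfl | rfl | rfl
          · exact absurd hz hp
          · exact absurd hz hq
          · rfl
        · rintro rfl
          exact hr
      rw [← this]
      exact hT

lemma bM_loser (hU : ∀ T T', M T → M T' → M (T ∪ T')) (hC : M C) (h3 : C.card ≤ 3)
    (hneg : bM M C < 0) :
    C.card = 3 ∧ M ∅ ∧ ∃ p ∈ C, M {p} ∧ ∃ r ∈ C, r ≠ p ∧ ∀ T, T ⊆ C → M T → r ∈ T → T = C := by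
  have h4 : C.card = 3 := by
    by_contra hne
    have := bM_small hC (show C.card ≤ 2 by omega)
    omega
  refine ⟨h4, ?_⟩
  obtain ⟨a, b, c, hab, hac, hbc, hW⟩ := Finset.card_eq_three.1 h4
  obtain ⟨hv, f0, f1, f2, f3⟩ := facts3 hU hab hac hbc hC hW
  have b0 := ind_bd M ∅
  have b1 := ind_bd M {a}
  have b2 := ind_bd M {b}
  have b3 := ind_bd M {c}
  have b4 := ind_bd M {a, b}
  have b5 := ind_bd M {a, c}
  have b6 := ind_bd M {b, c}
  have g0 : ind M ∅ = 1 := by omega
  refine ⟨ind_one.1 g0, ?_⟩
  have hcase : (ind M {a} = 1 ∧ ind M {b} = 0 ∧ ind M {a, b} = 0 ∧ ind M {b, c} = 0) ∨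
      (ind M {a} = 1 ∧ ind M {c} = 0 ∧ ind M {a, c} = 0 ∧ ind M {b, c} = 0) ∨
      (ind M {b} = 1 ∧ ind M {a} = 0 ∧ ind M {a, b} = 0 ∧ ind M {a, c} = 0) ∨
      (ind M {b} = 1 ∧ ind M {c} = 0 ∧ ind M {b, c} = 0 ∧ ind M {a, c} = 0) ∨
      (ind M {c} = 1 ∧ ind M {a} = 0 ∧ ind M {a, c} = 0 ∧ ind M {a, b} = 0) ∨
      (ind M {c} = 1 ∧ ind M {b} = 0 ∧ ind M {b, c} = 0 ∧ ind M {a, b} = 0) := by omega
  have perm : ∀ p q r : β, p ≠ r → C = {p, q, r} → ind M {p} = 1 →
      ind M {r} = 0 → ind M {p, r} = 0 → ind M {q, r} = 0 → ∃ p ∈ C, M {p} ∧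
      ∃ r ∈ C, r ≠ p ∧ ∀ T, T ⊆ C → M T → r ∈ T → T = C := by
    intro p q r hpr hWe e1 e2 e3 e4
    refine ⟨p, by rw [hWe]; simp, ind_one.1 e1, r, by rw [hWe]; simp, hpr.symm, ?_⟩
    exact only_full hWe (ind_zero.1 e2) (ind_zero.1 e3) (ind_zero.1 e4)
  have s1 : ({a, b} : Finset β) = {b, a} := Finset.pair_comm a b
  have s2 : ({a, c} : Finset β) = {c, a} := Finset.pair_comm a c
  have s3 : ({b, c} : Finset β) = {c, b} := Finset.pair_comm b c
  have w1 : C = {a, c, b} := by rw [hW, s3]
  have w2 : C = {b, c, a} := by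
    rw [hW]
    ext z
    simp only [Finset.mem_insert, Finset.mem_singleton]
    tauto
  have w3 : C = {b, a, c} := by
    rw [hW]
    ext z
    simp only [Finset.mem_insert, Finset.mem_singleton]
    tauto
  have w4 : C = {c, b, a} := by
    rw [hW]
    ext z
    simp only [Finset.mem_insert, Finset.mem_singleton]
    tauto
  have w5 : C = {c, a, b} := by
    rw [hW]
    ext z
    simp only [Finset.mem_insert, Finset.mem_singleton]
    tauto
  rcases hcase with ⟨e1, e2, e3, e4⟩ | ⟨e1, e2, e3, e4⟩ | ⟨e1, e2, e3, e4⟩ | ⟨e1, e2, e3, e4⟩ |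
    ⟨e1, e2, e3, e4⟩ | ⟨e1, e2, e3, e4⟩
  · exact perm a c b hab w1 e1 e2 e3 (by rw [← s3]; exact e4)
  · exact perm a b c hac hW e1 e2 e3 e4
  · exact perm b c a hab.symm w2 e1 e2 (by rw [← s1]; exact e3) (by rw [← s2]; exact e4)
  · exact perm b a c hbc w3 e1 e2 e3 e4
  · exact perm c b a hac.symm w4 e1 e2 (by rw [← s2]; exact e3) (by rw [← s1]; exact e4)
  · exact perm c a b hbc.symm w5 e1 e2 (by rw [← s3]; exact e3) e4

end Pool.Agent.H97.R4
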