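import Pool.Agent.H83.ELZ.Basic

/-!
# Covered generators with few classes of shared points (MP_75f39d): definitions
-/

set_option autoImplicit false

namespace Pool.Agent.H97.R4

open Finset Pool.Agent.H97.GEN Pool.Agent.H83.ELZ

section

variable {β : Type*} [DecidableEq β]

open scoped Classical in
/-- The value of a set `M` of subsets of `C`. -/
noncomputable def bM (M : Finset β → Prop) (C : Finset β) : ℤ :=
  ∑ T ∈ C.powerset, if M T then 2 * (T.card : ℤ) - C.card else 0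

open scoped Classical in
/-- The members of `C` in every `T` with `M T`. -/
noncomputable def FoM (M : Finset β → Prop) (C : Finset β) : Finset β :=
  C.filter fun p => ∀ T, T ⊆ C → M T → p ∈ T

end

variable {α : Type*} [DecidableEq α]

/-- The type of a point: the members of `P` with this point. -/
def ty (P : Finset (Finset α)) (z : α) : Finset (Finset α) := P.filter (fun v => z ∈ v)

/-- The hypotheses. -/
structure HK (J P : Finset (Finset α)) (K : Finset α → Finset (Finset (Finset α))) : Prop where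
  irr : ∀ g ∈ J, g ∉ unions (J.erase g)
  PC : P ⊆ cov J
  comp : ∀ w ∈ cov J, ∀ i ∈ P, ∀ z, z ∈ w → z ∈ i → w ∈ P
  sub : ∀ w ∈ P, K w ⊆ w.image (ty P)
  ne : ∀ w ∈ P, (K w).Nonempty
  three : ∀ w ∈ P, (K w).card ≤ 3
  mem : ∀ w ∈ P, ∀ v ∈ P, v ≠ w → ∀ z, z ∈ w → z ∈ v → ty P z ∈ K w
  full : ∀ w ∈ P, (K w).card = 3 → ∀ g ∈ P, (∀ t ∈ K w, g ∈ t) → g = w

/-- The points of the generators outside `P` inside `B`. -/
def OO (J P : Finset (Finset α)) (B : Finset α) : Finset α :=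
  ((J \ P).filter (fun u => u ⊆ B)).sup id

/-- The live types of `w` at `B`. -/
def LT (J P : Finset (Finset α)) (K : Finset α → Finset (Finset (Finset α)))
    (B w : Finset α) : Finset (Finset (Finset α)) :=
  (w \ OO J P B).image (ty P) ∩ K w

/-- The trace of `A` on the live types. -/
def tr (J P : Finset (Finset α)) (K : Finset α → Finset (Finset (Finset α)))
    (B w A : Finset α) : Finset (Finset (Finset α)) :=
  (A ∩ (w \ OO J P B)).image (ty P) ∩ K w

/-- The traces of the unions `A` with `A ∪ w = B`. -/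
def MM (J P : Finset (Finset α)) (K : Finset α → Finset (Finset (Finset α)))
    (B w : Finset α) (T : Finset (Finset (Finset α))) : Prop :=
  ∃ A ∈ unions J, A ∪ w = B ∧ tr J P K B w A = T

/-- The value of the pair `(B, w)`. -/
noncomputable def vv (J P : Finset (Finset α)) (K : Finset α → Finset (Finset (Finset α)))
    (B w : Finset α) : ℤ :=
  bM (MM J P K B w) (LT J P K B w)

/-- The value at `B`. -/
noncomputable def ss (J P : Finset (Finset α)) (K : Finset α → Finset (Finset (Finset α)))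
    (B : Finset α) : ℤ :=
  ∑ w ∈ P.filter (fun w => w ⊆ B), vv J P K B w

lemma mem_ty {P : Finset (Finset α)} {z : α} {v : Finset α} : v ∈ ty P z ↔ v ∈ P ∧ z ∈ v := by
  unfold ty
  exact Finset.mem_filter

lemma mem_OO {J P : Finset (Finset α)} {B : Finset α} {z : α} :
    z ∈ OO J P B ↔ ∃ u ∈ J, u ∉ P ∧ u ⊆ B ∧ z ∈ u := by
  unfold OO
  rw [Finset.mem_sup]
  constructor
  · rintro ⟨u, hu, hz⟩
    obtain ⟨h1, h2⟩ := Finset.mem_filter.1 hu
    obtain ⟨h3, h4⟩ := Finset.mem_sdiff.1 h1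
    exact ⟨u, h3, h4, h2, hz⟩
  · rintro ⟨u, h3, h4, h2, hz⟩
    exact ⟨u, Finset.mem_filter.2 ⟨Finset.mem_sdiff.2 ⟨h3, h4⟩, h2⟩, hz⟩

lemma mem_LT {J P : Finset (Finset α)} {K : Finset α → Finset (Finset (Finset α))}
    {B w : Finset α} {t : Finset (Finset α)} :
    t ∈ LT J P K B w ↔ (∃ z ∈ w, z ∉ OO J P B ∧ ty P z = t) ∧ t ∈ K w := by
  unfold LT
  rw [Finset.mem_inter, Finset.mem_image]
  constructor
  · rintro ⟨⟨z, hz, hzt⟩, ht⟩
    obtain ⟨h1, h2⟩ := Finset.mem_sdiff.1 hz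
    exact ⟨⟨z, h1, h2, hzt⟩, ht⟩
  · rintro ⟨⟨z, h1, h2, hzt⟩, ht⟩
    exact ⟨⟨z, Finset.mem_sdiff.2 ⟨h1, h2⟩, hzt⟩, ht⟩

lemma mem_tr {J P : Finset (Finset α)} {K : Finset α → Finset (Finset (Finset α))}
    {B w A : Finset α} {t : Finset (Finset α)} :
    t ∈ tr J P K B w A ↔ (∃ z ∈ A, z ∈ w ∧ z ∉ OO J P B ∧ ty P z = t) ∧ t ∈ K w := by
  unfold tr
  rw [Finset.mem_inter, Finset.mem_image]
  constructor
  · rintro ⟨⟨z, hz, hzt⟩, ht⟩
    obtain ⟨h0, hz⟩ := Finset.mem_inter.1 hz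
    obtain ⟨h1, h2⟩ := Finset.mem_sdiff.1 hz
    exact ⟨⟨z, h0, h1, h2, hzt⟩, ht⟩
  · rintro ⟨⟨z, h0, h1, h2, hzt⟩, ht⟩
    exact ⟨⟨z, Finset.mem_inter.2 ⟨h0, Finset.mem_sdiff.2 ⟨h1, h2⟩⟩, hzt⟩, ht⟩

lemma mem_FoM {β : Type*} [DecidableEq β] {M : Finset β → Prop} {C : Finset β} {p : β} :
    p ∈ FoM M C ↔ p ∈ C ∧ ∀ T, T ⊆ C → M T → p ∈ T := by
  classical
  unfold FoM
  exact Finset.mem_filter

end Pool.Agent.H97.R4
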