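import Pool.Agent.H97.R4.Wrap
import Pool.Agent.H83.ELZ.FinalM

/-!
# Covered generators with few classes of shared points (MP_75f39d): union-closed families
-/

set_option autoImplicit false

namespace Pool.Agent.H97.R4

open Finset Pool.Agent.H97.GEN Pool.Agent.H83.ELZ Pool.Agent.H84.GEN

variable {α : Type*} [DecidableEq α]

/-- The members of `P` cut the shared points of every member into few classes. -/
def Few (P : Finset (Finset α)) : Prop :=
  ∀ w ∈ P, ((shared P w).image (ty P)).card ≤ 2 ∨
    (((shared P w).image (ty P)).card = 3 ∧ ∀ g ∈ P, shared P w ⊆ g → g = w)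

/-- **Few classes**, local form. -/
theorem few_local {A : Finset (Finset α)} (hA : UnionClosed A) (P : Finset (Finset α))
    (hP : P ⊆ cov (gens A)) (hne : P.Nonempty)
    (hcl : ∀ w ∈ cov (gens A), ∀ i ∈ P, ¬ Disjoint w i → w ∈ P) (hfew : Few P) :
    ∃ x ∈ P.sup id, A.card < 2 * fr A x := by
  classical
  have hu := unions_gens hA
  obtain ⟨z, hz, hlt⟩ := few_classes (gens A) P (fun g hg => gens_irr A hg) hP
    (fun w hw i hi y hyw hyi => hcl w hw i hi (Finset.not_disjoint_iff.2 ⟨y, hyw, hyi⟩))
    hfew hne
  have h1 : A.card ≤ (unions (gens A)).card := by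
    rw [hu]
    exact Finset.card_le_card (Finset.subset_insert _ _)
  have h2 : fr (unions (gens A)) z = fr A z := by
    rw [hu]
    exact fr_insert_empty A z
  exact ⟨z, hz, by omega⟩

/-- **Few classes**, for the whole family. -/
theorem few_all {A : Finset (Finset α)} (hA : UnionClosed A)
    (h : (meet A).Nonempty ∨ SepNotPower A) (hfew : Few (cov (gens A))) :
    ∃ x ∈ A.sup id, A.card < 2 * fr A x := by
  classical
  by_cases hc : (cov (gens A)).Nonempty
  · obtain ⟨x, hx, hlt⟩ := few_local hA (cov (gens A)) (Finset.Subset.refl _) hc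
      (fun w hw _ _ _ => hw) hfew
    obtain ⟨G, hG, hxG⟩ := mem_sup_id.1 hx
    exact ⟨x, mem_sup_id.2 ⟨G, gens_subset A (mem_cov.1 hG).1, hxG⟩, hlt⟩
  · apply part4_M hA h
    intro z
    rw [Finset.not_nonempty_iff_eq_empty] at hc
    rw [hc]
    simp

/-- Members with at most three elements have few classes. -/
theorem few_of_card {P : Finset (Finset α)} (h3 : ∀ w ∈ P, w.card ≤ 3) : Few P := by
  intro w hw
  have h1 : ((shared P w).image (ty P)).card ≤ (shared P w).card := Finset.card_image_le
  have hsub : shared P w ⊆ w := Finset.filter_subset _ _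
  have h2 : (shared P w).card ≤ w.card := Finset.card_le_card hsub
  have h4 := h3 w hw
  by_cases hc : ((shared P w).image (ty P)).card ≤ 2
  · exact Or.inl hc
  · right
    refine ⟨by omega, fun g hg hsg => ?_⟩
    have hsw : shared P w = w := Finset.eq_of_subset_of_card_le hsub (by omega)
    rw [hsw] at hsg
    exact (Finset.eq_of_subset_of_card_le hsg ((h3 g hg).trans (by omega))).symm

end Pool.Agent.H97.R4
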