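import Pool.Agent.H97.R4.Abs
import Pool.Agent.H97.R3.Defs

/-!
# Covered generators with few classes of shared points (MP_75f39d): the sums
-/

set_option autoImplicit false

namespace Pool.Agent.H97.R4

open Finset Pool.Agent.H97.GEN Pool.Agent.H83.ELZ

variable {α : Type*} [DecidableEq α]

variable {J P : Finset (Finset α)} {K : Finset α → Finset (Finset (Finset α))}

lemma HK.PJ (h : HK J P K) {w : Finset α} (hw : w ∈ P) : w ∈ J := (mem_cov.1 (h.PC hw)).1

/-- The generators outside `P` inside `B` that meet `w` are inside every `A` with `A ∪ w = B`. -/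
lemma HK.OO_sub (h : HK J P K) {A B w : Finset α} (hA : A ∈ unions J) (hwP : w ∈ P)
    (hAw : A ∪ w = B) {z : α} (hz : z ∈ w) (hzO : z ∈ OO J P B) : z ∈ A := by
  obtain ⟨u, hu, huP, huB, hzu⟩ := mem_OO.1 hzO
  have hnc : u ∉ cov J := fun hc => huP (h.comp u hc w hwP z hzu hz)
  have hfree : ∃ f ∈ u, ∀ g ∈ J, f ∈ g → g = u := by
    by_contra hcon
    push Not at hcon
    apply hnc
    refine mem_cov.2 ⟨hu, fun q hq => ?_⟩
    obtain ⟨g, hg, hqg, hgu⟩ := hcon q hq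
    exact ⟨g, hg, hgu, hqg⟩
  obtain ⟨f, hfu, hf⟩ := hfree
  have hfw : f ∉ w := by
    intro hfw
    have := hf w (h.PJ hwP) hfw
    rw [← this] at huP
    exact huP hwP
  have hfA : f ∈ A := by
    have := huB hfu
    rw [← hAw] at this
    rcases Finset.mem_union.1 this with h' | h'
    · exact h'
    · exact absurd h' hfw
  obtain ⟨g, hg, hgA, hfg⟩ := (mem_iff hA f).1 hfA
  rw [hf g hg hfg] at hgA
  exact hgA hzu

/-- Points of the same type are in the same unions. -/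
lemma HK.cls (_h : HK J P K) {A B : Finset α} (hA : A ∈ unions J)
    (hAB : A ⊆ B) {z z' : α} (hz : z ∈ A) (hzO : z ∉ OO J P B) (ht : ty P z' = ty P z) :
    z' ∈ A := by
  obtain ⟨g, hg, hgA, hzg⟩ := (mem_iff hA z).1 hz
  have hgP : g ∈ P := by
    by_contra hgP
    exact hzO (mem_OO.2 ⟨g, hg, hgP, hgA.trans hAB, hzg⟩)
  have h1 : g ∈ ty P z := mem_ty.2 ⟨hgP, hzg⟩
  rw [← ht] at h1
  exact hgA (mem_ty.1 h1).2

lemma HK.MM_union (_h : HK J P K) {B w : Finset α} (T T' : Finset (Finset (Finset α)))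
    (hT : MM J P K B w T) (hT' : MM J P K B w T') : MM J P K B w (T ∪ T') := by
  obtain ⟨A, hA, hAw, rfl⟩ := hT
  obtain ⟨A', hA', hAw', rfl⟩ := hT'
  refine ⟨A ∪ A', union_mem hA hA', ?_, ?_⟩
  · rw [Finset.union_assoc, hAw', ← hAw]
    ext z
    simp only [Finset.mem_union]
    tauto
  · ext t
    rw [Finset.mem_union, mem_tr, mem_tr, mem_tr]
    constructor
    · rintro ⟨⟨z, hz, h1, h2, h3⟩, h4⟩
      rcases Finset.mem_union.1 hz with h' | h'
      · exact Or.inl ⟨⟨z, h', h1, h2, h3⟩, h4⟩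
      · exact Or.inr ⟨⟨z, h', h1, h2, h3⟩, h4⟩
    · rintro (⟨⟨z, hz, h1, h2, h3⟩, h4⟩ | ⟨⟨z, hz, h1, h2, h3⟩, h4⟩)
      · exact ⟨⟨z, Finset.mem_union_left _ hz, h1, h2, h3⟩, h4⟩
      · exact ⟨⟨z, Finset.mem_union_right _ hz, h1, h2, h3⟩, h4⟩

lemma HK.MM_LT (_h : HK J P K) {B w : Finset α} (hB : B ∈ unions J) (hw : w ⊆ B) :
    MM J P K B w (LT J P K B w) := by
  refine ⟨B, hB, Finset.union_eq_left.2 hw, ?_⟩
  ext t
  rw [mem_tr, mem_LT]
  constructor
  · rintro ⟨⟨z, hz, h1, h2, h3⟩, h4⟩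
    exact ⟨⟨z, h1, h2, h3⟩, h4⟩
  · rintro ⟨⟨z, h1, h2, h3⟩, h4⟩
    exact ⟨⟨z, hw h1, h1, h2, h3⟩, h4⟩

lemma LT_sub {B w : Finset α} : LT J P K B w ⊆ K w := Finset.inter_subset_right

lemma HK.LT_card (h : HK J P K) {B w : Finset α} (hwP : w ∈ P) : (LT J P K B w).card ≤ 3 :=
  (Finset.card_le_card LT_sub).trans (h.three w hwP)

/-- The structure of a pair with a negative value. -/
lemma HK.struct (h : HK J P K) {B w : Finset α} (hB : B ∈ unions J) (hwP : w ∈ P) (hwB : w ⊆ B)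
    (hneg : vv J P K B w < 0) :
    ∃ A0 ∈ unions J, A0 ∪ w = B ∧ tr J P K B w A0 = ∅ ∧
      ∃ r ∈ w, (∀ g ∈ J, g ⊆ B → r ∈ g → g = w) ∧
      ∃ A1 ∈ unions J, A1 ∪ w = B ∧ r ∉ A1 ∧
        ∃ p ∈ A1, p ∈ w ∧ p ∉ OO J P B ∧ ty P p ∈ K w := by
  obtain ⟨hc, ⟨A0, hA0, hA0w, h0⟩, p, hp, ⟨A1, hA1, hA1w, h1⟩, r, hr, hrp, hT⟩ :=
    bM_loser (h.MM_union) (h.MM_LT hB hwB) (h.LT_card hwP) hneg
  have hLK : LT J P K B w = K w :=
    Finset.eq_of_subset_of_card_le LT_sub (by rw [hc]; exact h.three w hwP)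
  obtain ⟨⟨r', hr'w, hr'O, hr't⟩, hrK⟩ := mem_LT.1 hr
  refine ⟨A0, hA0, hA0w, h0, r', hr'w, ?_, A1, hA1, hA1w, ?_, ?_⟩
  · intro g hg hgB hrg
    have hgP : g ∈ P := by
      by_contra hgP
      exact hr'O (mem_OO.2 ⟨g, hg, hgP, hgB, hrg⟩)
    apply h.full w hwP (by rw [← hLK]; exact hc) g hgP
    have hmm : MM J P K B w (tr J P K B w (A0 ∪ g)) := by
      refine ⟨A0 ∪ g, union_mem hA0 (self_mem hg), ?_, rfl⟩
      rw [← hA0w] at hgB ⊢
      ext z
      simp only [Finset.mem_union]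
      constructor
      · rintro ((h' | h') | h')
        · exact Or.inl h'
        · exact Finset.mem_union.1 (hgB h')
        · exact Or.inr h'
      · rintro (h' | h')
        · exact Or.inl (Or.inl h')
        · exact Or.inr h'
    have hsub : tr J P K B w (A0 ∪ g) ⊆ LT J P K B w := by
      intro t ht
      obtain ⟨⟨z, _, h1', h2', h3'⟩, h4'⟩ := mem_tr.1 ht
      exact mem_LT.2 ⟨⟨z, h1', h2', h3'⟩, h4'⟩
    have hrt : r ∈ tr J P K B w (A0 ∪ g) :=
      mem_tr.2 ⟨⟨r', Finset.mem_union_right _ hrg, hr'w, hr'O, hr't⟩, hrK⟩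
    have hfull := hT _ hsub hmm hrt
    intro t ht
    rw [← hLK, ← hfull] at ht
    obtain ⟨⟨z, hz, h1', h2', h3'⟩, h4'⟩ := mem_tr.1 ht
    rcases Finset.mem_union.1 hz with h' | h'
    · exfalso
      have : t ∈ tr J P K B w A0 := mem_tr.2 ⟨⟨z, h', h1', h2', h3'⟩, h4'⟩
      rw [h0] at this
      exact absurd this (Finset.notMem_empty _)
    · rw [← h3']
      exact mem_ty.2 ⟨hgP, h'⟩
  · intro hr'A
    have : r ∈ tr J P K B w A1 := mem_tr.2 ⟨⟨r', hr'A, hr'w, hr'O, hr't⟩, hrK⟩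
    rw [h1, Finset.mem_singleton] at this
    exact hrp this
  · have : p ∈ tr J P K B w A1 := by
      rw [h1]
      exact Finset.mem_singleton_self _
    obtain ⟨⟨z, hz, h1', h2', h3'⟩, h4'⟩ := mem_tr.1 this
    exact ⟨z, hz, h1', h2', by rw [h3']; exact h4'⟩

/-- A pair with a negative value has a private point. -/
lemma HK.priv (h : HK J P K) {B w : Finset α} (hB : B ∈ unions J) (hwP : w ∈ P) (hwB : w ⊆ B)
    (hneg : vv J P K B w < 0) :
    MM J P K B w ∅ ∧ ∃ r ∈ w, ∀ g ∈ J, g ⊆ B → r ∈ g → g = w := by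
  obtain ⟨A0, hA0, hA0w, h0, r, hr, hpr, _⟩ := h.struct hB hwP hwB hneg
  exact ⟨⟨A0, hA0, hA0w, h0⟩, r, hr, hpr⟩

/-- What a negative pair is charged to. -/
def Chg (J P : Finset (Finset α)) (K : Finset α → Finset (Finset (Finset α)))
    (B w : Finset α) (t : Finset α × Finset (Finset α)) : Prop :=
  ∃ p ∈ w, p ∉ OO J P B ∧ ty P p = t.2 ∧ ty P p ∈ K w ∧
    ∃ A0 ∈ unions J, A0 ∪ w = B ∧ tr J P K B w A0 = ∅ ∧
      ∃ r ∈ w, ∀ g ∈ J, g ⊆ B → r ∈ g → g = w

lemma HK.charge (h : HK J P K) {B w : Finset α} (hB : B ∈ unions J) (hwP : w ∈ P)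
    (hwB : w ⊆ B) (hneg : vv J P K B w < 0) :
    ∃ v ∈ P, v ⊆ B ∧ ∃ p ∈ FoM (MM J P K B v) (LT J P K B v), Chg J P K B w (v, p) := by
  obtain ⟨A0, hA0, hA0w, h0, r, hr, hpr, A1, hA1, hA1w, hrA1, p, hpA1, hpw, hpO, hpK⟩ :=
    h.struct hB hwP hwB hneg
  have hA1B : A1 ⊆ B := by
    rw [← hA1w]
    exact Finset.subset_union_left
  obtain ⟨v, hv, hvA1, hpv⟩ := (mem_iff hA1 p).1 hpA1
  have hvB := hvA1.trans hA1B
  have hvP : v ∈ P := by
    by_contra hvP
    exact hpO (mem_OO.2 ⟨v, hv, hvP, hvB, hpv⟩)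
  have hrv : r ∉ v := fun hh => hrA1 (hvA1 hh)
  have hwv : w ≠ v := by
    rintro rfl
    exact hrv hr
  have hpKv : ty P p ∈ K v := h.mem v hvP w hwP hwv p hpv hpw
  refine ⟨v, hvP, hvB, ty P p, mem_FoM.2 ⟨mem_LT.2 ⟨⟨p, hpv, hpO, rfl⟩, hpKv⟩, ?_⟩,
    p, hpw, hpO, rfl, hpK, A0, hA0, hA0w, h0, r, hr, hpr⟩
  rintro T - ⟨A, hA, hAv, rfl⟩
  have hrA : r ∈ A := by
    have : r ∈ B := hwB hr
    rw [← hAv] at this
    rcases Finset.mem_union.1 this with h' | h'
    · exact h'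
    · exact absurd h' hrv
  obtain ⟨g, hg, hgA, hrg⟩ := (mem_iff hA r).1 hrA
  have hAB : A ⊆ B := by
    rw [← hAv]
    exact Finset.subset_union_left
  rw [hpr g hg (hgA.trans hAB) hrg] at hgA
  exact mem_tr.2 ⟨⟨p, hgA hpw, hpv, hpO, rfl⟩, hpKv⟩

lemma HK.point_le (h : HK J P K) {B w : Finset α} (hB : B ∈ unions J) (hwP : w ∈ P)
    (hwB : w ⊆ B) :
    ((FoM (MM J P K B w) (LT J P K B w)).card : ℤ) - (if vv J P K B w < 0 then 1 else 0)
      ≤ vv J P K B w := by
  have h1 : -1 ≤ vv J P K B w := bM_ge (h.MM_union) (h.MM_LT hB hwB) (h.LT_card hwP)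
  by_cases hF : (FoM (MM J P K B w) (LT J P K B w)).Nonempty
  · have h2 : ((FoM (MM J P K B w) (LT J P K B w)).card : ℤ) ≤ vv J P K B w :=
      bM_forced (h.MM_union) (h.MM_LT hB hwB) (h.LT_card hwP) hF
    split_ifs <;> linarith
  · rw [Finset.not_nonempty_iff_eq_empty] at hF
    rw [hF, Finset.card_empty]
    split_ifs with hn
    · push_cast
      linarith
    · push_cast
      linarith

/-- **The sum at every `B` is not negative.** -/
theorem HK.ss_nonneg (h : HK J P K) {B : Finset α} (hB : B ∈ unions J) : 0 ≤ ss J P K B := by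
  classical
  set Q := P.filter (fun w => w ⊆ B) with hQ
  set L := Q.filter (fun w => vv J P K B w < 0) with hL
  have hcount : L.card ≤ ∑ v ∈ Q, (FoM (MM J P K B v) (LT J P K B v)).card := by
    rw [← Finset.card_sigma]
    apply Finset.card_le_card_of_forall_subsingleton
      (fun (w : Finset α) (t : (_ : Finset α) × Finset (Finset α)) => Chg J P K B w (t.1, t.2))
    · intro w hw
      obtain ⟨hwQ, hneg⟩ := Finset.mem_filter.1 hw
      obtain ⟨hwP, hwB⟩ := Finset.mem_filter.1 hwQ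
      obtain ⟨v, hvP, hvB, p, hp, hch⟩ := h.charge hB hwP hwB hneg
      exact ⟨⟨v, p⟩, Finset.mem_sigma.2 ⟨Finset.mem_filter.2 ⟨hvP, hvB⟩, hp⟩, hch⟩
    · rintro ⟨v, t⟩ _ w ⟨hw, p, hpw, hpO, hpt, hpK, A0, hA0, hA0w, h0, r, hr, hpr⟩
        w' ⟨hw', p', hpw', hpO', hpt', hpK', A0', hA0', hA0w', h0', r', hr', hpr'⟩
      obtain ⟨hwQ, _⟩ := Finset.mem_filter.1 hw
      obtain ⟨hwP, hwB⟩ := Finset.mem_filter.1 hwQ
      obtain ⟨hwQ', _⟩ := Finset.mem_filter.1 hw'
      obtain ⟨hwP', hwB'⟩ := Finset.mem_filter.1 hwQ'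
      by_contra hne
      have hr'w : r' ∉ w := fun hh => hne (hpr' w (h.PJ hwP) hwB hh)
      have hr'A0 : r' ∈ A0 := by
        have : r' ∈ B := hwB' hr'
        rw [← hA0w] at this
        rcases Finset.mem_union.1 this with h' | h'
        · exact h'
        · exact absurd h' hr'w
      obtain ⟨g, hg, hgA, hrg⟩ := (mem_iff hA0 r').1 hr'A0
      have hAB : A0 ⊆ B := by
        rw [← hA0w]
        exact Finset.subset_union_left
      rw [hpr' g hg (hgA.trans hAB) hrg] at hgA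
      have hw'p : w' ∈ ty P p := by
        have h1 : w' ∈ ty P p' := mem_ty.2 ⟨hwP', hpw'⟩
        rw [hpt'] at h1
        rw [hpt]
        exact h1
      have hpA : p ∈ A0 := hgA (mem_ty.1 hw'p).2
      have : ty P p ∈ tr J P K B w A0 := mem_tr.2 ⟨⟨p, hpA, hpw, hpO, rfl⟩, hpK⟩
      rw [h0] at this
      exact absurd this (Finset.notMem_empty _)
  have h1 : ∑ w ∈ Q, (((FoM (MM J P K B w) (LT J P K B w)).card : ℤ)
      - (if vv J P K B w < 0 then 1 else 0)) ≤ ss J P K B := by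
    apply Finset.sum_le_sum
    intro w hw
    obtain ⟨hwP, hwB⟩ := Finset.mem_filter.1 hw
    exact h.point_le hB hwP hwB
  rw [Finset.sum_sub_distrib] at h1
  have h2 : ∑ w ∈ Q, (if vv J P K B w < 0 then (1 : ℤ) else 0) = L.card := by
    rw [← Finset.sum_filter, Finset.sum_const, nsmul_eq_mul, mul_one]
  have h3 : ((L.card : ℕ) : ℤ) ≤ ∑ v ∈ Q, ((FoM (MM J P K B v) (LT J P K B v)).card : ℤ) := by
    exact_mod_cast hcount
  rw [h2] at h1
  linarith

/-- The unions `A` with `A ∪ w = B`. -/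
def fib (J : Finset (Finset α)) (B w : Finset α) : Finset (Finset α) :=
  (unions J).filter (fun A => A ∪ w = B)

lemma mem_fib {A B w : Finset α} : A ∈ fib J B w ↔ A ∈ unions J ∧ A ∪ w = B := by
  unfold fib
  exact Finset.mem_filter

lemma tr_sub {A B w : Finset α} : tr J P K B w A ⊆ LT J P K B w := by
  intro t ht
  obtain ⟨⟨z, _, h1', h2', h3'⟩, h4'⟩ := mem_tr.1 ht
  exact mem_LT.2 ⟨⟨z, h1', h2', h3'⟩, h4'⟩

/-- A union with a trace that is not full is determined by its trace. -/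
lemma HK.inj_aux (h : HK J P K) {A A' B w : Finset α} (hwP : w ∈ P)
    (hA : A ∈ fib J B w) (hA' : A' ∈ fib J B w) (ht : tr J P K B w A = tr J P K B w A')
    (hnf : tr J P K B w A ≠ LT J P K B w) : A ⊆ A' := by
  obtain ⟨hAF, hAw⟩ := mem_fib.1 hA
  obtain ⟨hAF', hAw'⟩ := mem_fib.1 hA'
  have hAB : A ⊆ B := by
    rw [← hAw]
    exact Finset.subset_union_left
  have hAB' : A' ⊆ B := by
    rw [← hAw']
    exact Finset.subset_union_left
  intro z hz
  by_cases hzw : z ∈ w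
  · by_cases hzO : z ∈ OO J P B
    · exact h.OO_sub hAF' hwP hAw' hzw hzO
    · by_cases hzK : ty P z ∈ K w
      · have h1 : ty P z ∈ tr J P K B w A := mem_tr.2 ⟨⟨z, hz, hzw, hzO, rfl⟩, hzK⟩
        rw [ht] at h1
        obtain ⟨⟨z', hz', _, hzO', hzt'⟩, _⟩ := mem_tr.1 h1
        exact h.cls hAF' hAB' hz' hzO' hzt'.symm
      · exfalso
        obtain ⟨g, hg, hgA, hzg⟩ := (mem_iff hAF z).1 hz
        have hgP : g ∈ P := by
          by_contra hgP
          exact hzO (mem_OO.2 ⟨g, hg, hgP, hgA.trans hAB, hzg⟩)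
        have hgw : g = w := by
          by_contra hgw
          exact hzK (h.mem w hwP g hgP hgw z hzw hzg)
        rw [hgw] at hgA
        apply hnf
        apply Finset.Subset.antisymm tr_sub
        intro t ht'
        obtain ⟨⟨y, h1', h2', h3'⟩, h4'⟩ := mem_LT.1 ht'
        exact mem_tr.2 ⟨⟨y, hgA h1', h1', h2', h3'⟩, h4'⟩
  · have := hAB hz
    rw [← hAw'] at this
    rcases Finset.mem_union.1 this with h' | h'
    · exact h'
    · exact absurd h' hzw

/-- The value of the pair is at most the sum over the unions. -/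
lemma HK.vv_le (h : HK J P K) {B w : Finset α} (hwP : w ∈ P) :
    vv J P K B w ≤ ∑ A ∈ fib J B w,
      (2 * ((tr J P K B w A).card : ℤ) - (LT J P K B w).card) := by
  classical
  unfold vv bM
  rw [← Finset.sum_filter]
  have h1 : ∑ A ∈ fib J B w, (2 * ((tr J P K B w A).card : ℤ) - (LT J P K B w).card)
      = ∑ T ∈ (fib J B w).image (tr J P K B w),
        ((fib J B w).filter (fun A => tr J P K B w A = T)).card •
          (2 * (T.card : ℤ) - (LT J P K B w).card) :=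
    Finset.sum_comp (fun T => 2 * ((T : Finset (Finset (Finset α))).card : ℤ)
      - (LT J P K B w).card) (tr J P K B w)
  have h2 : (LT J P K B w).powerset.filter (fun T => MM J P K B w T)
      = (fib J B w).image (tr J P K B w) := by
    ext T
    rw [Finset.mem_filter, Finset.mem_powerset, Finset.mem_image]
    constructor
    · rintro ⟨_, A, hA, hAw, hT⟩
      exact ⟨A, mem_fib.2 ⟨hA, hAw⟩, hT⟩
    · rintro ⟨A, hA, hT⟩
      obtain ⟨hAF, hAw⟩ := mem_fib.1 hA
      refine ⟨?_, A, hAF, hAw, hT⟩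
      rw [← hT]
      exact tr_sub
  rw [h1]
  have h3 : ∑ T ∈ (LT J P K B w).powerset.filter (fun T => MM J P K B w T),
      (2 * (T.card : ℤ) - (LT J P K B w).card)
      = ∑ T ∈ (fib J B w).image (tr J P K B w), (2 * (T.card : ℤ) - (LT J P K B w).card) := by
    rw [h2]
  refine le_trans (le_of_eq ?_) (le_trans (le_of_eq h3) ?_)
  · apply Finset.sum_congr _ (fun _ _ => rfl)
    ext T
    simp only [Finset.mem_filter]
  apply Finset.sum_le_sum
  intro T hT
  obtain ⟨A, hA, hAT⟩ := Finset.mem_image.1 hT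
  have hmem : A ∈ (fib J B w).filter (fun A => tr J P K B w A = T) :=
    Finset.mem_filter.2 ⟨hA, hAT⟩
  by_cases hTf : T = LT J P K B w
  · have h4 : (0 : ℤ) ≤ 2 * (T.card : ℤ) - (LT J P K B w).card := by
      rw [hTf]
      have : (0 : ℤ) ≤ (LT J P K B w).card := by positivity
      linarith
    have h5 : 1 ≤ ((fib J B w).filter (fun A => tr J P K B w A = T)).card :=
      Finset.card_pos.2 ⟨A, hmem⟩
    rw [nsmul_eq_mul]
    have h6 : (1 : ℤ) ≤ (((fib J B w).filter (fun A => tr J P K B w A = T)).card : ℤ) := by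
      exact_mod_cast h5
    nlinarith
  · have h5 : ((fib J B w).filter (fun A => tr J P K B w A = T)).card = 1 := by
      rw [Finset.card_eq_one]
      refine ⟨A, ?_⟩
      ext A'
      rw [Finset.mem_filter, Finset.mem_singleton]
      constructor
      · rintro ⟨hA', hAT'⟩
        apply Finset.Subset.antisymm
        · exact h.inj_aux hwP hA' hA (by rw [hAT, hAT']) (by rw [hAT']; exact hTf)
        · exact h.inj_aux hwP hA hA' (by rw [hAT, hAT']) (by rw [hAT]; exact hTf)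
      · intro hh
        rw [hh]
        exact ⟨hA, hAT⟩
    rw [h5, one_smul]

/-- A system of representatives. -/
structure Rep (P : Finset (Finset α)) (K : Finset α → Finset (Finset (Finset α)))
    (w R : Finset α) : Prop where
  sub : R ⊆ w
  inj : Set.InjOn (ty P) (R : Set α)
  im : R.image (ty P) = K w

lemma HK.sdiff_le (h : HK J P K) {A B w R : Finset α} (hwP : w ∈ P) (hR : Rep P K w R)
    (hA : A ∈ fib J B w) : (R \ A).card ≤ (LT J P K B w \ tr J P K B w A).card := by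
  obtain ⟨hAF, hAw⟩ := mem_fib.1 hA
  have hAB : A ⊆ B := by
    rw [← hAw]
    exact Finset.subset_union_left
  apply Finset.card_le_card_of_injOn (ty P)
  · intro x hx
    have hx' := Finset.mem_sdiff.1 (Finset.mem_coe.1 hx)
    have hxw := hR.sub hx'.1
    have hxO : x ∉ OO J P B := fun hh => hx'.2 (h.OO_sub hAF hwP hAw hxw hh)
    have hxK : ty P x ∈ K w := by
      rw [← hR.im]
      exact Finset.mem_image_of_mem _ hx'.1
    refine Finset.mem_coe.2 (Finset.mem_sdiff.2 ⟨mem_LT.2 ⟨⟨x, hxw, hxO, rfl⟩, hxK⟩, ?_⟩)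
    intro hh
    obtain ⟨⟨z, hz, _, hzO, hzt⟩, _⟩ := mem_tr.1 hh
    exact hx'.2 (h.cls hAF hAB hz hzO hzt.symm)
  · intro x hx y hy hxy
    exact hR.inj (Finset.mem_coe.2 (Finset.mem_sdiff.1 (Finset.mem_coe.1 hx)).1)
      (Finset.mem_coe.2 (Finset.mem_sdiff.1 (Finset.mem_coe.1 hy)).1) hxy

lemma LT_card_le {B w R : Finset α} (hR : Rep P K w R) : (LT J P K B w).card ≤ R.card := by
  calc (LT J P K B w).card ≤ (K w).card := Finset.card_le_card LT_sub
    _ = (R.image (ty P)).card := by rw [hR.im]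
    _ ≤ R.card := Finset.card_image_le

lemma HK.pt_le (h : HK J P K) {A B w R : Finset α} (hwP : w ∈ P) (hR : Rep P K w R)
    (hA : A ∈ fib J B w) :
    2 * ((tr J P K B w A).card : ℤ) - (LT J P K B w).card ≤ (R.card : ℤ) - 2 * (R \ A).card := by
  have h1 := h.sdiff_le hwP hR hA
  have h2 : (LT J P K B w).card ≤ R.card := LT_card_le hR
  have h3 : (LT J P K B w \ tr J P K B w A).card + (tr J P K B w A).card
      = (LT J P K B w).card := Finset.card_sdiff_add_card_eq_card tr_sub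
  omega

lemma HK.fib_le (h : HK J P K) {B w R : Finset α} (hwP : w ∈ P) (hR : Rep P K w R) :
    vv J P K B w ≤ ∑ A ∈ fib J B w, ((R.card : ℤ) - 2 * (R \ A).card) :=
  (h.vv_le hwP).trans (Finset.sum_le_sum (fun _ hA => h.pt_le hwP hR hA))

lemma sum_fib {w : Finset α} (hw : w ∈ J) (R : Finset α) :
    ∑ z ∈ R, (2 * (fr (unions J) z : ℤ) - (unions J).card)
      = ∑ B ∈ (unions J).filter (fun B => w ⊆ B),
        ∑ A ∈ fib J B w, ((R.card : ℤ) - 2 * (R \ A).card) := by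
  rw [← Pool.Agent.H97.R3.sum_points]
  symm
  apply Finset.sum_fiberwise_of_maps_to
  intro A hA
  exact Finset.mem_filter.2 ⟨union_mem hA (self_mem hw), Finset.subset_union_right⟩

/-- The weights of a system of representatives `R` of `K w`. -/
lemma HK.ge (h : HK J P K) {w : Finset α} (hw : w ∈ P) {R : Finset α} (hR : R ⊆ w)
    (hinj : Set.InjOn (ty P) (R : Set α)) (him : R.image (ty P) = K w) :
    ∑ B ∈ (unions J).filter (fun B => w ⊆ B), vv J P K B w
      ≤ ∑ z ∈ R, (2 * (fr (unions J) z : ℤ) - (unions J).card) := by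
  rw [sum_fib (h.PJ hw) R]
  exact Finset.sum_le_sum (fun B _ => h.fib_le hw ⟨hR, hinj, him⟩)

lemma HK.gt (h : HK J P K) {w : Finset α} (hw : w ∈ P) {R : Finset α} (hR : R ⊆ w)
    (hinj : Set.InjOn (ty P) (R : Set α)) (him : R.image (ty P) = K w)
    {u : Finset α} (hu : u ∈ J) (huP : u ∉ P) {z : α} (hzR : z ∈ R) (hzu : z ∈ u) :
    ∑ B ∈ (unions J).filter (fun B => w ⊆ B), vv J P K B w
      < ∑ z ∈ R, (2 * (fr (unions J) z : ℤ) - (unions J).card) := by
  have hRep : Rep P K w R := ⟨hR, hinj, him⟩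
  rw [sum_fib (h.PJ hw) R]
  apply Finset.sum_lt_sum (fun B _ => h.fib_le hw hRep)
  have huf : u ∈ fib J (u ∪ w) w := mem_fib.2 ⟨self_mem hu, rfl⟩
  refine ⟨u ∪ w, Finset.mem_filter.2 ⟨union_mem (self_mem hu) (self_mem (h.PJ hw)),
    Finset.subset_union_right⟩, ?_⟩
  refine lt_of_le_of_lt (h.vv_le hw) ?_
  apply Finset.sum_lt_sum (fun A hA => h.pt_le hw hRep hA)
  refine ⟨u, huf, ?_⟩
  have htr : tr J P K (u ∪ w) w u = ∅ := by
    rw [Finset.eq_empty_iff_forall_notMem]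
    intro t ht
    obtain ⟨⟨x, hx, _, hxO, _⟩, _⟩ := mem_tr.1 ht
    exact hxO (mem_OO.2 ⟨u, hu, huP, Finset.subset_union_left, hx⟩)
  have h1 := h.sdiff_le hw hRep huf
  rw [htr, Finset.sdiff_empty] at h1
  have h2 : (R \ u).card < R.card := by
    apply Finset.card_lt_card
    refine ⟨Finset.sdiff_subset, fun hsub => ?_⟩
    exact (Finset.mem_sdiff.1 (hsub hzR)).2 hzu
  rw [htr, Finset.card_empty]
  push_cast
  omega

end Pool.Agent.H97.R4
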