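import Pool.Agent.H97.R4.Wrap
import Pool.Agent.H83.ELZ.T8Final

/-!
# One class at most three (MP_75f39d): points in at most three covered generators, or covered generators
with at most three classes of shared points
-/

set_option autoImplicit false

namespace Pool.Agent.H97.R4

open Finset Pool.Agent.H97.GEN Pool.Agent.H83.ELZ Pool.Agent.H84.GEN

variable {α : Type*} [DecidableEq α]

/-- The two conditions. -/
def OneCl (P : Finset (Finset α)) : Prop :=
  (∀ z : α, (P.filter fun g => z ∈ g ∧ g ≠ {z}).card ≤ 3) ∨
    (∀ w ∈ P, ((shared P w).image (ty P)).card ≤ 2 ∨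
      (((shared P w).image (ty P)).card = 3 ∧ ∀ g ∈ P, shared P w ⊆ g → g = w))

theorem one_local {J P : Finset (Finset α)} (hirr : ∀ g ∈ J, g ∉ unions (J.erase g))
    (hP : P.Nonempty) (PC : P ⊆ cov J)
    (comp : ∀ w ∈ cov J, ∀ i ∈ P, ∀ z, z ∈ w → z ∈ i → w ∈ P) (h : OneCl P) :
    ∃ z ∈ P.sup id, (unions J).card < 2 * fr (unions J) z := by
  rcases h with h | h
  · by_cases hs : ∃ x : α, ({x} : Finset α) ∈ P
    · obtain ⟨x, hx⟩ := hs
      have hxx : x ∈ ({x} : Finset α) := Finset.mem_singleton_self x
      obtain ⟨i, hi, hix, hxi⟩ := (mem_cov.1 (PC hx)).2 x hxx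
      have hlt := two_hit_cov hirr (PC hx) hi hix hxx hxx hxi hxi (by
        intro g _ hd
        obtain ⟨y, hy, hy'⟩ := Finset.not_disjoint_iff.1 hd
        rw [Finset.mem_singleton.1 hy'] at hy
        exact Or.inl hy)
      exact ⟨x, mem_sup_id.2 ⟨_, hx, hxx⟩, by omega⟩
    · push Not at hs
      apply three_local hirr hP PC comp
      intro z
      have he : (P.filter fun g => z ∈ g) = P.filter fun g => z ∈ g ∧ g ≠ {z} := by
        apply Finset.filter_congr
        intro g hg
        constructor
        · intro hz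
          refine ⟨hz, fun hgz => hs z ?_⟩
          rw [← hgz]
          exact hg
        · intro hz
          exact hz.1
      rw [he]
      exact h z
  · exact few_classes J P hirr PC comp h hP

theorem one_all {A : Finset (Finset α)} (hA : UnionClosed A)
    (h : (meet A).Nonempty ∨ SepNotPower A) (hc : OneCl (cov (gens A))) :
    ∃ x ∈ A.sup id, A.card < 2 * fr A x := by
  classical
  have hu := unions_gens hA
  have h2 : A.card ≤ (unions (gens A)).card := by
    rw [hu]
    exact Finset.card_le_card (Finset.subset_insert _ _)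
  have h3 : ∀ x, fr (unions (gens A)) x = fr A x := by
    intro x
    rw [hu]
    exact fr_insert_empty A x
  by_cases hne : (cov (gens A)).Nonempty
  · obtain ⟨x, hx, hlt⟩ := one_local (fun g hg => gens_irr A hg) hne (Finset.Subset.refl _)
      (fun w hw _ _ _ _ _ => hw) hc
    obtain ⟨G, hG, hxG⟩ := mem_sup_id.1 hx
    rw [h3] at hlt
    exact ⟨x, mem_sup_id.2 ⟨G, gens_subset A (mem_cov.1 hG).1, hxG⟩, by omega⟩
  · apply part4_M hA h
    intro z
    rw [Finset.not_nonempty_iff_eq_empty] at hne
    rw [hne]
    simp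

end Pool.Agent.H97.R4
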