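import Pool.Agent.H97.R4.Main

/-!
# Covered generators with few classes of shared points (MP_75f39d): the strict part

Proof.  Suppose `2 fr z ≤ |F|` for all `z ∈ ⋃P` (F := unions J).  V w := Σ_{B ⊇ w} vv B w ≤ Σ_{z ∈ R} (2 fr z − |F|) ≤ 0 for every
system `R` of representatives of `K w` (HK.ge), and Σ_{w ∈ P} V w = Σ_{B ∈ F} ss B ≥ 0 (HK.ss_nonneg), so
(a) all `ss B = 0` and (b) all `V w = 0`.
(c) `u ∈ J∖P`, `w ∈ P`, `z ∈ w ∩ u` ⇒ `ty P z ∉ K w`  [else choose `R ∋ z`, HK.gt: V w < Σ ≤ 0].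
(d) `g ∈ J`, `g ⊂ u ∈ P` is impossible:  g ∈ P (covered: all its points are in u ≠ g; comp).  |K g| ≤ 2: if |K g| = 3 then `full` for g
    (every t ∈ K g is ty z with z ∈ g ⊆ u, so u ∈ t) gives u = g.  No member u' of J∖P meets g (z ∈ g ∩ u' has ty z ∈ K g by `mem` with v := u; (c)).
    All vv B g ≥ 0 (bM_small, MM_LT) and V g = 0, so vv u g = 0.  LT u g is not empty (z ∈ g: z ∉ OO, ty z ∈ K g), so MM u g ∅ (bM_pos):
    A ∈ F, A ∪ g = u, tr A = ∅ so A ∩ g = ∅.  So u is a union of g and of the generators inside A, all ≠ u: contradicts irr.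
(e) `w ≠ u` in P with a common point x: B := w ∪ u.  No g ∈ J∖P is inside B [g meets w or u in P, so g is not covered, so it has a point in no
    other generator, but this point is in w or u].  So OO B = ∅.  ¬ MM B w ∅: A ∈ F, A ∪ w = B, tr A = ∅.  If z ∈ A ∩ w then ty z ∉ K w so (mem) no other member of P
    has z, so the generator inside A with z is w (it is inside B so it is in P), w ⊆ A, but K w is nonempty ⊆ w.image ty, so tr A ≠ ∅.  So A ∩ w = ∅; A ⊆ u, x ∉ A.
    A empty: u ⊂ w, (d).  Else a generator g ⊆ A, g ⊂ u, (d).   Same for (B,u).  vv B w > 0 (bM_pos; LT B w = K w nonempty).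
    Every v ∈ P, v ⊆ B has vv B v ≥ 0: else HK.priv: r ∈ v ⊆ B is in w or u so v = w or v = u, but MM B v ∅.  So ss B > 0, contradicting (a).
(f) w ∈ P: t ∈ K w, t = ty x, x ∈ w; w is covered: u ∈ J, u ≠ w, x ∈ u.  u ∈ P: (e).  u ∉ P: (c).
-/

set_option autoImplicit false

namespace Pool.Agent.H97.R4

open Finset Pool.Agent.H97.GEN Pool.Agent.H83.ELZ

variable {α : Type*} [DecidableEq α]

variable {J P : Finset (Finset α)} {K : Finset α → Finset (Finset (Finset α))}

/-- Systems of representatives through a given point. -/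
lemma HK.reps (h : HK J P K) {w : Finset α} (hw : w ∈ P) {z : α} (hz : z ∈ w)
    (hzK : ty P z ∈ K w) :
    ∃ R : Finset α, R ⊆ w ∧ Set.InjOn (ty P) (R : Set α) ∧ R.image (ty P) = K w ∧ z ∈ R := by
  classical
  have hch : ∀ t : Finset (Finset α), ∃ y : α, t ∈ K w → y ∈ w ∧ ty P y = t := by
    intro t
    by_cases ht : t ∈ K w
    · obtain ⟨y, hy, hyt⟩ := Finset.mem_image.1 (h.sub w hw ht)
      exact ⟨y, fun _ => ⟨hy, hyt⟩⟩
    · exact ⟨z, fun h' => absurd h' ht⟩
  choose f hf using hch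
  set f' : Finset (Finset α) → α := fun t => if t = ty P z then z else f t with hf'
  have hf'w : ∀ t ∈ K w, f' t ∈ w ∧ ty P (f' t) = t := by
    intro t ht
    rw [hf']
    by_cases h1 : t = ty P z
    · simp only [h1, if_true]
      exact ⟨hz, trivial⟩
    · simp only [if_neg h1]
      exact hf t ht
  refine ⟨(K w).image f', ?_, ?_, ?_, ?_⟩
  · intro y hy
    obtain ⟨t, ht, rfl⟩ := Finset.mem_image.1 hy
    exact (hf'w t ht).1
  · intro y hy y' hy' he
    rw [Finset.mem_coe] at hy hy'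
    obtain ⟨t, ht, rfl⟩ := Finset.mem_image.1 hy
    obtain ⟨t', ht', rfl⟩ := Finset.mem_image.1 hy'
    rw [(hf'w t ht).2, (hf'w t' ht').2] at he
    rw [he]
  · ext t
    rw [Finset.mem_image]
    constructor
    · rintro ⟨y, hy, rfl⟩
      obtain ⟨t', ht', rfl⟩ := Finset.mem_image.1 hy
      rw [(hf'w t' ht').2]
      exact ht'
    · intro ht
      exact ⟨f' t, Finset.mem_image_of_mem _ ht, (hf'w t ht).2⟩
  · refine Finset.mem_image.2 ⟨ty P z, hzK, ?_⟩
    rw [hf']
    simp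

lemma HK.gne (h : HK J P K) {g : Finset α} (hg : g ∈ J) : g.Nonempty := by
  rw [Finset.nonempty_iff_ne_empty]
  rintro rfl
  exact h.irr _ hg (empty_mem _)

lemma sum_ss : ∑ w ∈ P, ∑ B ∈ (unions J).filter (fun B => w ⊆ B), vv J P K B w
    = ∑ B ∈ unions J, ss J P K B := by
  classical
  unfold ss
  simp_rw [Finset.sum_filter]
  exact Finset.sum_comm

lemma HK.LT_card2 (h : HK J P K) {w B : Finset α} (hw : w ∈ P) :
    (LT J P K B w).card ≤ (K w).card := by
  have := h.three w hw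
  exact Finset.card_le_card Finset.inter_subset_right

theorem HK.exists_gt (h : HK J P K) (hP : P.Nonempty) :
    ∃ z ∈ P.sup id, (unions J).card < 2 * fr (unions J) z := by
  classical
  by_contra hcon
  push Not at hcon
  have hbias : ∀ w ∈ P, ∀ z ∈ w, (2 * (fr (unions J) z : ℤ) - (unions J).card) ≤ 0 := by
    intro w hw z hz
    have := hcon z (mem_sup_id.2 ⟨w, hw, hz⟩)
    omega
  have hRle : ∀ w ∈ P, ∀ R : Finset α, R ⊆ w →
      ∑ z ∈ R, (2 * (fr (unions J) z : ℤ) - (unions J).card) ≤ 0 :=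
    fun w hw R hR => Finset.sum_nonpos fun z hz => hbias w hw z (hR hz)
  have hVle : ∀ w ∈ P, ∑ B ∈ (unions J).filter (fun B => w ⊆ B), vv J P K B w ≤ 0 := by
    intro w hw
    obtain ⟨t, ht⟩ := h.ne w hw
    obtain ⟨z, hz, rfl⟩ := Finset.mem_image.1 (h.sub w hw ht)
    obtain ⟨R, hR, hinj, him, -⟩ := h.reps hw hz ht
    exact (h.ge hw hR hinj him).trans (hRle w hw R hR)
  have hss : ∀ B ∈ unions J, 0 ≤ ss J P K B := fun B hB => h.ss_nonneg hB
  have hs1 : 0 ≤ ∑ B ∈ unions J, ss J P K B := Finset.sum_nonneg hss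
  have hs2 : ∑ w ∈ P, ∑ B ∈ (unions J).filter (fun B => w ⊆ B), vv J P K B w ≤ 0 :=
    Finset.sum_nonpos hVle
  have hs3 := sum_ss (J := J) (P := P) (K := K)
  have hV0 : ∀ w ∈ P, ∑ B ∈ (unions J).filter (fun B => w ⊆ B), vv J P K B w = 0 :=
    (Finset.sum_eq_zero_iff_of_nonpos hVle).1 (by omega)
  have hss0 : ∀ B ∈ unions J, ss J P K B = 0 :=
    (Finset.sum_eq_zero_iff_of_nonneg hss).1 (by omega)
  -- (c)
  have hc : ∀ u ∈ J, u ∉ P → ∀ w ∈ P, ∀ z, z ∈ w → z ∈ u → ty P z ∉ K w := by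
    intro u hu huP w hw z hzw hzu hzK
    obtain ⟨R, hR, hinj, him, hzR⟩ := h.reps hw hzw hzK
    have h1 := h.gt hw hR hinj him hu huP hzR hzu
    have h2 := hRle w hw R hR
    have h3 := hV0 w hw
    omega
  -- (d)
  have hd : ∀ g ∈ J, ∀ u ∈ P, g ⊆ u → g ≠ u → False := by
    intro g hg u hu hgu hne
    have hgc : g ∈ cov J := mem_cov.2 ⟨hg, fun p hp => ⟨u, h.PJ hu, hne.symm, hgu hp⟩⟩
    obtain ⟨z0, hz0⟩ := h.gne hg
    have hgP : g ∈ P := h.comp g hgc u hu z0 hz0 (hgu hz0)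
    have hK2 : (K g).card ≤ 2 := by
      have h3 := h.three g hgP
      by_contra hcon2
      have h4 : (K g).card = 3 := by omega
      apply hne
      refine (h.full g hgP h4 u hu ?_).symm
      intro t ht
      obtain ⟨z, hz, rfl⟩ := Finset.mem_image.1 (h.sub g hgP ht)
      exact mem_ty.2 ⟨hu, hgu hz⟩
    have hnn : ∀ B ∈ (unions J).filter (fun B => g ⊆ B), 0 ≤ vv J P K B g := by
      intro B hB
      obtain ⟨hBF, hgB⟩ := Finset.mem_filter.1 hB
      exact bM_small (h.MM_LT hBF hgB) ((h.LT_card2 hgP).trans hK2)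
    have huF : u ∈ (unions J).filter (fun B => g ⊆ B) :=
      Finset.mem_filter.2 ⟨self_mem (h.PJ hu), hgu⟩
    have hv0 : vv J P K u g = 0 := (Finset.sum_eq_zero_iff_of_nonneg hnn).1 (hV0 g hgP) u huF
    have hnO : ∀ z ∈ g, ty P z ∈ K g → z ∉ OO J P u := by
      intro z hz hzK hzO
      obtain ⟨u', hu', hu'P, -, hzu'⟩ := mem_OO.1 hzO
      exact hc u' hu' hu'P g hgP z hz hzu' hzK
    have hLne : (LT J P K u g).Nonempty := by
      obtain ⟨t, ht⟩ := h.ne g hgP
      obtain ⟨z, hz, rfl⟩ := Finset.mem_image.1 (h.sub g hgP ht)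
      exact ⟨ty P z, mem_LT.2 ⟨⟨z, hz, hnO z hz ht, rfl⟩, ht⟩⟩
    have hM0 : MM J P K u g ∅ := by
      by_contra hno
      have := bM_pos (fun T T' hT hT' => h.MM_union T T' hT hT')
        (h.MM_LT (self_mem (h.PJ hu)) hgu) hLne ((h.LT_card2 hgP).trans (by omega)) hno
      unfold vv at hv0
      omega
    obtain ⟨A, hA, hAg, htr⟩ := hM0
    have hdis : ∀ z ∈ A, z ∉ g := by
      intro z hzA hzg
      have hzK : ty P z ∈ K g := h.mem g hgP u hu hne.symm z hzg (hgu hzg)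
      have : ty P z ∈ tr J P K u g A := mem_tr.2 ⟨⟨z, hzA, hzg, hnO z hzg hzK, rfl⟩, hzK⟩
      rw [htr] at this
      exact Finset.notMem_empty _ this
    apply h.irr u (h.PJ hu)
    apply mem_unions_of
    intro y hy
    rw [← hAg] at hy
    rcases Finset.mem_union.1 hy with hyA | hyg
    · obtain ⟨G, hG, hGA, hyG⟩ := (mem_iff hA y).1 hyA
      refine ⟨G, Finset.mem_erase.2 ⟨?_, hG⟩, ?_, hyG⟩
      · rintro rfl
        exact hdis z0 (hGA (hgu hz0)) hz0
      · rw [← hAg]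
        exact hGA.trans Finset.subset_union_left
    · exact ⟨g, Finset.mem_erase.2 ⟨hne, hg⟩, hgu, hyg⟩
  -- (e)
  have hin : ∀ w ∈ P, ∀ u ∈ P, ∀ g ∈ J, g ⊆ w ∪ u → g ∈ P := by
    intro w hw u hu g hg hsub
    by_contra hgP
    have hgc : g ∉ cov J := by
      intro hgc
      obtain ⟨z, hz⟩ := h.gne hg
      rcases Finset.mem_union.1 (hsub hz) with h1 | h1
      · exact hgP (h.comp g hgc w hw z hz h1)
      · exact hgP (h.comp g hgc u hu z hz h1)
    apply hgc
    refine mem_cov.2 ⟨hg, fun p hp => ?_⟩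
    rcases Finset.mem_union.1 (hsub hp) with h1 | h1
    · exact ⟨w, h.PJ hw, fun he => hgP (he ▸ hw), h1⟩
    · exact ⟨u, h.PJ hu, fun he => hgP (he ▸ hu), h1⟩
  have hnO : ∀ w ∈ P, ∀ u ∈ P, ∀ z, z ∉ OO J P (w ∪ u) := by
    intro w hw u hu z hz
    obtain ⟨u', hu', hu'P, hsub, -⟩ := mem_OO.1 hz
    exact hu'P (hin w hw u hu u' hu' hsub)
  have he0 : ∀ w ∈ P, ∀ u ∈ P, w ≠ u → ∀ x, x ∈ w → x ∈ u → ¬ MM J P K (w ∪ u) w ∅ := by
    rintro w hw u hu hwu x hxw hxu ⟨A, hA, hAw, htr⟩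
    have htr' : ∀ z ∈ A, z ∈ w → ty P z ∉ K w := by
      intro z hzA hzw hzK
      have : ty P z ∈ tr J P K (w ∪ u) w A :=
        mem_tr.2 ⟨⟨z, hzA, hzw, hnO w hw u hu z, rfl⟩, hzK⟩
      rw [htr] at this
      exact Finset.notMem_empty _ this
    have hdis : ∀ z ∈ A, z ∉ w := by
      intro z hzA hzw
      obtain ⟨G, hG, hGA, hzG⟩ := (mem_iff hA z).1 hzA
      have hGP : G ∈ P := hin w hw u hu G hG (by
        rw [← hAw]
        exact hGA.trans Finset.subset_union_left)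
      by_cases hGw : G = w
      · subst hGw
        obtain ⟨t, ht⟩ := h.ne G hw
        obtain ⟨y, hy, rfl⟩ := Finset.mem_image.1 (h.sub G hw ht)
        exact htr' y (hGA hy) hy ht
      · exact htr' z hzA hzw (h.mem w hw G hGP hGw z hzw hzG)
    have hAu : A ⊆ u := by
      intro z hz
      have : z ∈ w ∪ u := by
        rw [← hAw]
        exact Finset.mem_union_left _ hz
      rcases Finset.mem_union.1 this with h1 | h1
      · exact absurd h1 (hdis z hz)
      · exact h1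
    rcases A.eq_empty_or_nonempty with h0 | ⟨z, hz⟩
    · apply hd u (h.PJ hu) w hw ?_ hwu.symm
      rw [h0, Finset.empty_union] at hAw
      rw [hAw]
      exact Finset.subset_union_right
    · obtain ⟨G, hG, hGA, hzG⟩ := (mem_iff hA z).1 hz
      apply hd G hG u hu (hGA.trans hAu)
      rintro rfl
      exact hdis x (hGA hxu) hxw
  have he : ∀ w ∈ P, ∀ u ∈ P, w ≠ u → ∀ x, x ∈ w → x ∈ u → False := by
    intro w hw u hu hwu x hxw hxu
    have hBF : w ∪ u ∈ unions J := union_mem (self_mem (h.PJ hw)) (self_mem (h.PJ hu))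
    have h1 := he0 w hw u hu hwu x hxw hxu
    have h2 := he0 u hu w hw hwu.symm x hxu hxw
    rw [Finset.union_comm] at h2
    have hLne : (LT J P K (w ∪ u) w).Nonempty := by
      obtain ⟨t, ht⟩ := h.ne w hw
      obtain ⟨z, hz, rfl⟩ := Finset.mem_image.1 (h.sub w hw ht)
      exact ⟨ty P z, mem_LT.2 ⟨⟨z, hz, hnO w hw u hu z, rfl⟩, ht⟩⟩
    have hpos : 0 < vv J P K (w ∪ u) w :=
      bM_pos (fun T T' hT hT' => h.MM_union T T' hT hT')
        (h.MM_LT hBF Finset.subset_union_left) hLne ((h.LT_card2 hw).trans (h.three w hw)) h1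
    have hnn : ∀ v ∈ P.filter (fun v => v ⊆ w ∪ u), 0 ≤ vv J P K (w ∪ u) v := by
      intro v hv
      obtain ⟨hvP, hvB⟩ := Finset.mem_filter.1 hv
      by_contra hneg
      push Not at hneg
      obtain ⟨hM, r, hr, hpr⟩ := h.priv hBF hvP hvB hneg
      rcases Finset.mem_union.1 (hvB hr) with h3 | h3
      · have := hpr w (h.PJ hw) Finset.subset_union_left h3
        rw [← this] at hM
        exact h1 hM
      · have := hpr u (h.PJ hu) Finset.subset_union_right h3
        rw [← this] at hM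
        exact h2 hM
    have hle : vv J P K (w ∪ u) w ≤ ss J P K (w ∪ u) := by
      unfold ss
      exact Finset.single_le_sum (f := fun v => vv J P K (w ∪ u) v) hnn
        (Finset.mem_filter.2 ⟨hw, Finset.subset_union_left⟩)
    have := hss0 _ hBF
    omega
  -- (f)
  obtain ⟨w, hw⟩ := hP
  obtain ⟨t, ht⟩ := h.ne w hw
  obtain ⟨x, hx, rfl⟩ := Finset.mem_image.1 (h.sub w hw ht)
  obtain ⟨u, hu, huw, hxu⟩ := (mem_cov.1 (h.PC hw)).2 x hx
  by_cases huP : u ∈ P
  · exact he w hw u huP huw.symm x hx hxu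
  · exact hc u hu huP w hw x hx hxu ht

end Pool.Agent.H97.R4
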