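import Pool.Agent.H97.R4.Strict

/-!
# Covered generators with few classes of shared points (MP_75f39d): from the elementary hypothesis to `HK`

`K w := if (w.image (ty P)).card ≤ 3 then w.image (ty P) else (w.image (ty P)).erase {w}`.
The types of the points of `w` are: types `≠ {w}` (= types of shared points: `mem`), and perhaps `{w}`.
`full`: let |K w| = 3, g ∈ P, g ∈ t for all t ∈ K w, and g ≠ w.
 Every shared point of w is in g: its type is ≠ {w} so it is in K w (both cases).  So `shared P w ⊆ g`; by `hcond` this gives g = w if the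
 second case of `hcond` holds for w.  If the first case (at most 2 classes of shared points) holds for w, then |w.image ty| ≤ 3, K w = w.image ty has 3 elements, so `{w} ∈ K w`, so g ∈ {w}.
-/

set_option autoImplicit false

namespace Pool.Agent.H97.R4

open Finset Pool.Agent.H97.GEN Pool.Agent.H83.ELZ

variable {α : Type*} [DecidableEq α]

/-- The points of `w` in another member of `P`. -/
def shared (P : Finset (Finset α)) (w : Finset α) : Finset α :=
  w.filter (fun z => ∃ v ∈ P, v ≠ w ∧ z ∈ v)

lemma mem_shared {P : Finset (Finset α)} {w : Finset α} {z : α} :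
    z ∈ shared P w ↔ z ∈ w ∧ ∃ v ∈ P, v ≠ w ∧ z ∈ v := by
  unfold shared
  exact Finset.mem_filter

/-- A shared point is a point whose type is not `{w}`. -/
lemma ty_ne {P : Finset (Finset α)} {w : Finset α} (hw : w ∈ P) {z : α} (hz : z ∈ w) :
    ty P z ≠ {w} ↔ z ∈ shared P w := by
  constructor
  · intro h
    refine mem_shared.2 ⟨hz, ?_⟩
    by_contra hcon
    push Not at hcon
    apply h
    ext v
    rw [Finset.mem_singleton]
    constructor
    · intro hv
      obtain ⟨hvP, hzv⟩ := mem_ty.1 hv
      by_contra hne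
      exact hcon v hvP hne hzv
    · rintro rfl
      exact mem_ty.2 ⟨hw, hz⟩
  · intro h he
    obtain ⟨-, v, hvP, hvw, hzv⟩ := mem_shared.1 h
    have h1 : v ∈ ty P z := mem_ty.2 ⟨hvP, hzv⟩
    rw [he, Finset.mem_singleton] at h1
    exact hvw h1

/-- The types of the shared points. -/
lemma image_shared {P : Finset (Finset α)} {w : Finset α} (hw : w ∈ P) :
    (w.image (ty P)).erase {w} = (shared P w).image (ty P) := by
  ext t
  rw [Finset.mem_erase, Finset.mem_image, Finset.mem_image]
  constructor
  · rintro ⟨h1, z, hz, rfl⟩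
    exact ⟨z, (ty_ne hw hz).1 h1, rfl⟩
  · rintro ⟨z, hz, rfl⟩
    have hzw := (mem_shared.1 hz).1
    exact ⟨(ty_ne hw hzw).2 hz, z, hzw, rfl⟩

/-- The chosen classes. -/
def KK (P : Finset (Finset α)) (w : Finset α) : Finset (Finset (Finset α)) :=
  if (w.image (ty P)).card ≤ 3 then w.image (ty P) else (w.image (ty P)).erase {w}

lemma KK_sub (P : Finset (Finset α)) (w : Finset α) : KK P w ⊆ w.image (ty P) := by
  unfold KK
  split_ifs
  · exact Finset.Subset.refl _
  · exact Finset.erase_subset _ _

lemma KK_mem {P : Finset (Finset α)} {w v : Finset α} {z : α} (hv : v ∈ P) (hvw : v ≠ w)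
    (hzw : z ∈ w) (hzv : z ∈ v) : ty P z ∈ KK P w := by
  have h1 : ty P z ∈ w.image (ty P) := Finset.mem_image.2 ⟨z, hzw, rfl⟩
  unfold KK
  split_ifs
  · exact h1
  · refine Finset.mem_erase.2 ⟨fun he => ?_, h1⟩
    have h2 : v ∈ ty P z := mem_ty.2 ⟨hv, hzv⟩
    rw [he, Finset.mem_singleton] at h2
    exact hvw h2

lemma KK_HK {J P : Finset (Finset α)} (irr : ∀ g ∈ J, g ∉ unions (J.erase g))
    (PC : P ⊆ cov J) (comp : ∀ w ∈ cov J, ∀ i ∈ P, ∀ z, z ∈ w → z ∈ i → w ∈ P)
    (hcond : ∀ w ∈ P, ((shared P w).image (ty P)).card ≤ 2 ∨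
      (((shared P w).image (ty P)).card = 3 ∧ ∀ g ∈ P, shared P w ⊆ g → g = w)) :
    HK J P (KK P) := by
  have hcard : ∀ w ∈ P, ((w.image (ty P)).erase {w}).card ≤ 3 := by
    intro w hw
    rw [image_shared hw]
    rcases hcond w hw with h | h
    · omega
    · omega
  refine ⟨irr, PC, comp, fun w _ => KK_sub P w, ?_, ?_, ?_, ?_⟩
  · intro w hw
    have hwJ := (mem_cov.1 (PC hw)).1
    have hne : w.Nonempty := by
      rw [Finset.nonempty_iff_ne_empty]
      rintro rfl
      exact irr _ hwJ (empty_mem _)
    unfold KK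
    split_ifs with h
    · exact hne.image _
    · rw [← Finset.card_pos]
      have := Finset.pred_card_le_card_erase (a := ({w} : Finset (Finset α)))
        (s := w.image (ty P))
      omega
  · intro w hw
    unfold KK
    split_ifs with h
    · exact h
    · exact hcard w hw
  · intro w _ v hv hvw z hzw hzv
    exact KK_mem hv hvw hzw hzv
  · intro w hw h3 g hg hall
    by_contra hgw
    have hsub : shared P w ⊆ g := by
      intro z hz
      obtain ⟨hzw, v, hvP, hvw, hzv⟩ := mem_shared.1 hz
      exact (mem_ty.1 (hall _ (KK_mem hvP hvw hzw hzv))).2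
    rcases hcond w hw with h | h
    · -- `{w}` is a class
      have hle : (w.image (ty P)).card ≤ 3 := by
        have h4 := Finset.pred_card_le_card_erase (a := ({w} : Finset (Finset α)))
          (s := w.image (ty P))
        rw [image_shared hw] at h4
        omega
      have hK : KK P w = w.image (ty P) := by
        unfold KK
        rw [if_pos hle]
      have hmem : ({w} : Finset (Finset α)) ∈ KK P w := by
        by_contra hcon
        rw [hK] at hcon h3
        have h4 := Finset.erase_eq_of_notMem hcon
        rw [image_shared hw] at h4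
        rw [h4] at h
        omega
      exact hgw (Finset.mem_singleton.1 (hall _ hmem))
    · exact hgw (h.2 g hg hsub)

/-- **Few classes of shared points.** -/
theorem few_classes (J P : Finset (Finset α)) (irr : ∀ g ∈ J, g ∉ unions (J.erase g))
    (PC : P ⊆ cov J) (comp : ∀ w ∈ cov J, ∀ i ∈ P, ∀ z, z ∈ w → z ∈ i → w ∈ P)
    (hcond : ∀ w ∈ P, ((shared P w).image (ty P)).card ≤ 2 ∨
      (((shared P w).image (ty P)).card = 3 ∧ ∀ g ∈ P, shared P w ⊆ g → g = w))
    (hP : P.Nonempty) :
    ∃ z ∈ P.sup id, (unions J).card < 2 * fr (unions J) z := by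
  exact (KK_HK irr PC comp hcond).exists_gt hP

end Pool.Agent.H97.R4
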